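import Pool.Agent.W360.MQ.Stm

/-! Project MQ: continuity of the functions. -/

set_option autoImplicit false

namespace Pool.Agent.W215.MQ.Cont

open MeasureTheory Set Filter Topology
open Pool.Agent.W360.MQ

/-- the case `τ = 0` -/
lemma alpha_abs {α β : ℝ → ℝ} (h : RC α β) : ConvexOn ℝ univ (fun t : ℝ => α |t|) := by
  have h0 := h 0
  refine h0.congr ?_
  intro t _
  simp

lemma alpha_cont {α β : ℝ → ℝ} (h : RC α β) : Continuous (fun t : ℝ => α |t|) := by
  have := (alpha_abs h).continuousOn isOpen_univ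
  exact continuousOn_univ.mp this

lemma alpha_contOn {α β : ℝ → ℝ} (h : RC α β) : ContinuousOn α (Ici 0) := by
  refine (alpha_cont h).continuousOn.congr ?_
  intro t ht
  simp only [mem_Ici] at ht
  simp [abs_of_nonneg ht]

lemma alpha_mono {α β : ℝ → ℝ} (h : RC α β) : MonotoneOn α (Ici 0) := by
  intro s hs t ht hst
  simp only [mem_Ici] at hs ht
  rcases eq_or_lt_of_le ht with h0 | h0
  · have : s = t := by linarith
    rw [this]
  · have hc := (alpha_abs h).2 (mem_univ (-t)) (mem_univ t)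
      (show (0 : ℝ) ≤ (t - s) / (2 * t) by
        apply div_nonneg <;> linarith)
      (show (0 : ℝ) ≤ (t + s) / (2 * t) by
        apply div_nonneg <;> linarith)
      (by field_simp; ring)
    have e1 : ((t - s) / (2 * t)) • (-t) + ((t + s) / (2 * t)) • t = s := by
      simp only [smul_eq_mul]
      field_simp
      ring
    rw [e1] at hc
    simp only [smul_eq_mul, abs_neg, abs_of_nonneg hs, abs_of_nonneg ht] at hc
    have e2 : (t - s) / (2 * t) * α t + (t + s) / (2 * t) * α t = α t := by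
      field_simp
      ring
    linarith

lemma beta_contAt {α β : ℝ → ℝ} (h : RC α β) {s0 : ℝ} (hs : 0 < s0) : ContinuousAt β s0 := by
  have hF : Continuous (fun t : ℝ => α (max |t| |s0 / 2|) + β (max |t| |s0 / 2|) * (t * (s0 / 2))) :=
    continuousOn_univ.mp ((h (s0 / 2)).continuousOn isOpen_univ)
  have hG : ContinuousAt (fun t : ℝ => (α (max |t| |s0 / 2|) + β (max |t| |s0 / 2|) * (t * (s0 / 2))
      - α |t|) / (t * (s0 / 2))) s0 := by
    apply ContinuousAt.div
    · exact (hF.sub (alpha_cont h)).continuousAt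
    · fun_prop
    · positivity
  refine hG.congr ?_
  have : ∀ᶠ t in 𝓝 s0, s0 / 2 < t := lt_mem_nhds (by linarith)
  filter_upwards [this] with t ht
  have ht0 : 0 < t := by linarith
  have e1 : max |t| |s0 / 2| = t := by
    rw [abs_of_pos ht0, abs_of_pos (by linarith)]
    exact max_eq_left ht.le
  rw [e1, abs_of_pos ht0]
  field_simp
  ring

lemma beta_contOn {α β : ℝ → ℝ} (h : RC α β) : ContinuousOn β (Ioi 0) := by
  intro s hs
  exact (beta_contAt h hs).continuousWithinAt

/-- the bound for `|β(s)| s²` -/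
lemma beta_bd {α β : ℝ → ℝ} (h : RC α β) {s : ℝ} (hs : 0 < s) (hs1 : s ≤ 1) :
    |β s * s ^ 2| ≤ s * (abs (α 1 - α |s|) + |β 1| * s) := by
  have a1 := (h s).2 (mem_univ 0) (mem_univ 1) (show (0 : ℝ) ≤ 1 - s by linarith) hs.le (by ring)
  have a2 := (h (-s)).2 (mem_univ 0) (mem_univ 1) (show (0 : ℝ) ≤ 1 - s by linarith) hs.le (by ring)
  simp only [smul_eq_mul, mul_zero, mul_one, zero_add, abs_neg, abs_zero, abs_one, abs_of_pos hs,
    max_self, max_eq_right hs.le, max_eq_left hs1] at a1 a2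
  rw [abs_of_pos hs]
  have b1 : α 1 - α s ≤ |α 1 - α s| := le_abs_self _
  have b2 : β 1 ≤ |β 1| := le_abs_self _
  have b3 : -β 1 ≤ |β 1| := neg_le_abs _
  have c1 : s * (α 1 - α s) ≤ s * |α 1 - α s| := mul_le_mul_of_nonneg_left b1 hs.le
  have c2 : s * (β 1 * s) ≤ s * (|β 1| * s) := by
    apply mul_le_mul_of_nonneg_left _ hs.le
    exact mul_le_mul_of_nonneg_right b2 hs.le
  have c3 : s * (-β 1 * s) ≤ s * (|β 1| * s) := by
    apply mul_le_mul_of_nonneg_left _ hs.le
    exact mul_le_mul_of_nonneg_right b3 hs.le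
  rw [abs_le]
  constructor <;> nlinarith

lemma bound_tendsto {α β : ℝ → ℝ} (h : RC α β) :
    Tendsto (fun s : ℝ => s * (abs (α 1 - α |s|) + |β 1| * s)) (𝓝 0) (𝓝 0) := by
  have hc : Continuous (fun s : ℝ => s * (abs (α 1 - α |s|) + |β 1| * s)) := by
    have := alpha_cont h
    exact continuous_id.mul (((continuous_const.sub this).abs).add
      (continuous_const.mul continuous_id))
  have := hc.tendsto 0
  simpa using this

lemma beta_tendsto {α β : ℝ → ℝ} (h : RC α β) :
    Tendsto (fun s => β s * s ^ 2) (𝓝[>] 0) (𝓝 0) := by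
  have h1 : Tendsto (fun s : ℝ => s * (abs (α 1 - α |s|) + |β 1| * s)) (𝓝[>] 0) (𝓝 0) :=
    (bound_tendsto h).mono_left nhdsWithin_le_nhds
  refine squeeze_zero_norm' ?_ h1
  have : ∀ᶠ s : ℝ in 𝓝[>] 0, s < 1 := nhdsWithin_le_nhds (gt_mem_nhds one_pos)
  filter_upwards [this, self_mem_nhdsWithin] with s hs hs0
  rw [Real.norm_eq_abs]
  exact beta_bd h hs0 hs.le

/-- MQ-CONT -/
theorem main : S_CONT := by
  intro α β h
  have hs : Continuous (fun F : ℂ × ℂ => ‖F.1‖ + ‖F.2‖) := by fun_prop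
  have h1 : Continuous (fun F : ℂ × ℂ => α (‖F.1‖ + ‖F.2‖)) := by
    have := (alpha_cont h).comp hs
    refine this.congr ?_
    intro F
    simp only [Function.comp]
    rw [abs_of_nonneg (by positivity)]
  have h2 : Continuous (fun F : ℂ × ℂ => β (‖F.1‖ + ‖F.2‖) * (‖F.1‖ ^ 2 - ‖F.2‖ ^ 2)) := by
    rw [continuous_iff_continuousAt]
    intro F
    rcases eq_or_lt_of_le (show (0 : ℝ) ≤ ‖F.1‖ + ‖F.2‖ by positivity) with h0 | h0
    · have z1 : ‖F.1‖ = 0 := by
        have := norm_nonneg F.1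
        have := norm_nonneg F.2
        linarith
      have z2 : ‖F.2‖ = 0 := by
        have := norm_nonneg F.1
        have := norm_nonneg F.2
        linarith
      have hF : F = 0 := Prod.ext (norm_eq_zero.mp z1) (norm_eq_zero.mp z2)
      subst hF
      unfold ContinuousAt
      have e0 : β (‖(0 : ℂ × ℂ).1‖ + ‖(0 : ℂ × ℂ).2‖) * (‖(0 : ℂ × ℂ).1‖ ^ 2
          - ‖(0 : ℂ × ℂ).2‖ ^ 2) = 0 := by simp
      have e0' : (fun F : ℂ × ℂ => β (‖F.1‖ + ‖F.2‖) * (‖F.1‖ ^ 2 - ‖F.2‖ ^ 2)) 0 = 0 := e0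
      rw [e0']
      have hT : Tendsto (fun F : ℂ × ℂ => ‖F.1‖ + ‖F.2‖) (𝓝 0) (𝓝 0) := by
        have := hs.tendsto 0
        simpa using this
      refine squeeze_zero_norm' ?_ ((bound_tendsto h).comp hT)
      filter_upwards [hT (gt_mem_nhds one_pos)] with F hF
      simp only [mem_preimage, Set.mem_ofPred_eq] at hF
      simp only [Function.comp, Real.norm_eq_abs]
      rcases eq_or_lt_of_le (show (0 : ℝ) ≤ ‖F.1‖ + ‖F.2‖ by positivity) with h3 | h3
      · have z1 : ‖F.1‖ = 0 := by
          have := norm_nonneg F.1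
          have := norm_nonneg F.2
          linarith
        have z2 : ‖F.2‖ = 0 := by
          have := norm_nonneg F.1
          have := norm_nonneg F.2
          linarith
        rw [z1, z2]
        simp
      · refine le_trans ?_ (beta_bd h h3 (le_of_lt hF))
        rw [abs_mul, abs_mul]
        apply mul_le_mul_of_nonneg_left _ (abs_nonneg _)
        rw [abs_of_nonneg (show (0 : ℝ) ≤ (‖F.1‖ + ‖F.2‖) ^ 2 by positivity), abs_le]
        have := norm_nonneg F.1
        have := norm_nonneg F.2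
        constructor <;> nlinarith
    · apply ContinuousAt.mul
      · exact (beta_contAt h h0).comp (f := fun F : ℂ × ℂ => ‖F.1‖ + ‖F.2‖) hs.continuousAt
      · fun_prop
  exact h1.add h2

end Pool.Agent.W215.MQ.Cont
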